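import Pool.Agent.Helper51.CP.Defs

/-!
# Polygons between a compact convex set and a neighbourhood (module POLY)
-/

namespace Pool.Agent.Helper53.CP

open Complex MeasureTheory Set Pool.Agent.Helper51.CP

noncomputable section

/-- the point `e^{i phi}` of the unit circle -/
def ee (φ : ℝ) : ℂ := Complex.exp (φ * I)

theorem ee_add (a b : ℝ) : ee (a + b) = ee a * ee b := by
  unfold ee
  rw [← Complex.exp_add]
  push_cast
  ring_nf

theorem ee_zero : ee 0 = 1 := by simp [ee]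

theorem ee_mul_neg (φ : ℝ) : ee φ * ee (-φ) = 1 := by
  rw [← ee_add, add_neg_cancel, ee_zero]

theorem ee_re (φ : ℝ) : (ee φ).re = Real.cos φ := by
  unfold ee; exact Complex.exp_ofReal_mul_I_re φ

theorem ee_im (φ : ℝ) : (ee φ).im = Real.sin φ := by
  unfold ee; exact Complex.exp_ofReal_mul_I_im φ

theorem ee_conj (φ : ℝ) : (starRingEnd ℂ) (ee φ) = ee (-φ) := by
  apply Complex.ext
  · rw [Complex.conj_re, ee_re, ee_re, Real.cos_neg]
  · rw [Complex.conj_im, ee_im, ee_im, Real.sin_neg]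

theorem ee_norm (φ : ℝ) : ‖ee φ‖ = 1 := by
  unfold ee; exact Complex.norm_exp_ofReal_mul_I φ

theorem ee_two_pi (φ : ℝ) : ee (φ + 2 * Real.pi) = ee φ := by
  rw [ee_add]
  have : ee (2 * Real.pi) = 1 := by
    unfold ee
    push_cast
    exact Complex.exp_two_pi_mul_I
  rw [this, mul_one]

theorem ee_ne (φ : ℝ) : ee φ ≠ 0 := by unfold ee; exact Complex.exp_ne_zero _

/-! ## The recurrence -/

theorem seq_formula {d : ℝ} {E L : ℕ → ℝ} (h0 : E 0 = 0) (h1 : E 1 = L 0 * Real.sin d)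
    (hr : ∀ m, E (m + 2) + E m - 2 * Real.cos d * E (m + 1) = L (m + 1) * Real.sin d) :
    ∀ m, E m = ∑ i ∈ Finset.range m, L i * Real.sin (((m : ℝ) - i) * d)
  | 0 => by simp [h0]
  | 1 => by simp [h1]
  | m + 2 => by
    have e1 := seq_formula h0 h1 hr m
    have e2 := seq_formula h0 h1 hr (m + 1)
    have e3 : E (m + 2) = L (m + 1) * Real.sin d + 2 * Real.cos d * E (m + 1) - E m := by
      linarith [hr m]
    rw [e3, e2, e1, Finset.sum_range_succ, Finset.sum_range_succ, Finset.sum_range_succ, mul_add,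
      Finset.mul_sum]
    have e4 : ∀ i ∈ Finset.range m, L i * Real.sin (((m + 2 : ℕ) - (i : ℝ)) * d) =
        2 * Real.cos d * (L i * Real.sin (((m + 1 : ℕ) - (i : ℝ)) * d)) -
          L i * Real.sin (((m : ℕ) - (i : ℝ)) * d) := by
      intro i _
      have a1 : ((m + 2 : ℕ) - (i : ℝ)) * d = ((m + 1 : ℕ) - (i : ℝ)) * d + d := by
        push_cast; ring
      have a2 : ((m : ℕ) - (i : ℝ)) * d = ((m + 1 : ℕ) - (i : ℝ)) * d - d := by
        push_cast; ring
      rw [a1, a2, Real.sin_add, Real.sin_sub]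
      ring
    rw [Finset.sum_congr rfl e4, Finset.sum_sub_distrib]
    have a3 : ((m + 1 : ℕ) - (m : ℝ)) * d = d := by push_cast; ring
    have a4 : ((m + 2 : ℕ) - (m : ℝ)) * d = 2 * d := by push_cast; ring
    have a5 : ((m + 2 : ℕ) - ((m + 1 : ℕ) : ℝ)) * d = d := by push_cast; ring
    rw [a3, a4, a5, Real.sin_two_mul]
    ring

theorem seq_pos {d : ℝ} (hd : 0 < d) (hd2 : d < Real.pi) {E L : ℕ → ℝ} (h0 : E 0 = 0)
    (h1 : E 1 = L 0 * Real.sin d)
    (hr : ∀ m, E (m + 2) + E m - 2 * Real.cos d * E (m + 1) = L (m + 1) * Real.sin d)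
    (hL : ∀ i, 0 < L i) {m : ℕ} (hm : 0 < m) (hmd : (m : ℝ) * d ≤ Real.pi) : 0 < E m := by
  rw [seq_formula h0 h1 hr m]
  apply Finset.sum_pos'
  · intro i hi
    have hi' : i < m := Finset.mem_range.1 hi
    have a1 : (0 : ℝ) < (m : ℝ) - i := by
      have : (i : ℝ) < m := by exact_mod_cast hi'
      linarith
    apply mul_nonneg (hL i).le
    apply Real.sin_nonneg_of_nonneg_of_le_pi (by positivity)
    have : (0 : ℝ) ≤ i * d := by positivity
    nlinarith
  · refine ⟨m - 1, Finset.mem_range.2 (by omega), ?_⟩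
    have a1 : ((m : ℝ) - ((m - 1 : ℕ) : ℝ)) * d = d := by
      rw [Nat.cast_sub (by omega)]; push_cast; ring
    rw [a1]
    exact mul_pos (hL _) (Real.sin_pos_of_pos_of_lt_pi hd hd2)

/-! ## The equiangular polygon -/

/-- vertex of the polygon with support values `H` -/
def Vv (H : ℝ → ℝ) (d φ : ℝ) : ℂ :=
  ee φ * ((H φ : ℂ) + I * (((Real.cos d * H φ - H (φ - d)) / Real.sin d : ℝ) : ℂ))

/-- side length -/
def lf (H : ℝ → ℝ) (d φ : ℝ) : ℝ := (H (φ + d) + H (φ - d) - 2 * Real.cos d * H φ) / Real.sin d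

/-- distance to the side line -/
def Dd (H : ℝ → ℝ) (φ : ℝ) (z : ℂ) : ℝ := H φ - (ee (-φ) * z).re

variable {H : ℝ → ℝ} {d : ℝ}

theorem rot_Vv (φ : ℝ) : ee (-φ) * Vv H d φ =
    (H φ : ℂ) + I * (((Real.cos d * H φ - H (φ - d)) / Real.sin d : ℝ) : ℂ) := by
  unfold Vv
  rw [← mul_assoc, mul_comm (ee (-φ)), ee_mul_neg, one_mul]

theorem Vv_succ (hs : Real.sin d ≠ 0) (φ : ℝ) : Vv H d (φ + d) =
    ee φ * ((H φ : ℂ) + I * (((H (φ + d) - Real.cos d * H φ) / Real.sin d : ℝ) : ℂ)) := by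
  unfold Vv
  rw [ee_add, mul_assoc, add_sub_cancel_right]
  congr 1
  apply Complex.ext
  · simp only [Complex.mul_re, Complex.add_re, Complex.add_im, ee_re, ee_im, Complex.ofReal_re,
      Complex.ofReal_im, Complex.I_re, Complex.I_im, Complex.mul_im]
    field_simp
    ring
  · simp only [Complex.mul_re, Complex.add_re, Complex.add_im, ee_re, ee_im, Complex.ofReal_re,
      Complex.ofReal_im, Complex.I_re, Complex.I_im, Complex.mul_im]
    field_simp
    have := Real.sin_sq_add_cos_sq d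
    ring_nf
    ring_nf at this
    have e : Real.sin d ^ 2 = 1 - Real.cos d ^ 2 := by linarith
    rw [e]
    ring

theorem rot_Vv_succ (hs : Real.sin d ≠ 0) (φ : ℝ) : ee (-φ) * Vv H d (φ + d) =
    (H φ : ℂ) + I * (((H (φ + d) - Real.cos d * H φ) / Real.sin d : ℝ) : ℂ) := by
  rw [Vv_succ hs, ← mul_assoc, mul_comm (ee (-φ)), ee_mul_neg, one_mul]

theorem side_eq (hs : Real.sin d ≠ 0) (φ : ℝ) :
    Vv H d (φ + d) - Vv H d φ = ee φ * (I * (lf H d φ : ℂ)) := by
  rw [Vv_succ hs]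
  unfold Vv lf
  rw [← mul_sub]
  congr 1
  push_cast
  ring

theorem crs_side (hs : Real.sin d ≠ 0) (φ : ℝ) (z : ℂ) :
    crs (Vv H d (φ + d) - Vv H d φ) (z - Vv H d φ) = lf H d φ * Dd H φ z := by
  have h1 : (starRingEnd ℂ) (Vv H d (φ + d) - Vv H d φ) * (z - Vv H d φ) =
      -(I * (lf H d φ : ℂ)) * (ee (-φ) * z - ee (-φ) * Vv H d φ) := by
    rw [side_eq hs, map_mul, map_mul, ee_conj, Complex.conj_I, Complex.conj_ofReal]
    ring
  unfold crs Dd
  rw [h1, rot_Vv]
  simp only [Complex.mul_im, Complex.mul_re, Complex.sub_re, Complex.sub_im, Complex.add_re,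
    Complex.add_im, Complex.neg_re, Complex.neg_im, Complex.I_re, Complex.I_im, Complex.ofReal_re,
    Complex.ofReal_im]
  ring

theorem Dd_affine (φ s : ℝ) (a b : ℂ) :
    Dd H φ (a + s * (b - a)) = (1 - s) * Dd H φ a + s * Dd H φ b := by
  unfold Dd
  have : ee (-φ) * (a + s * (b - a)) = ee (-φ) * a + s * (ee (-φ) * b - ee (-φ) * a) := by ring
  rw [this]
  simp only [Complex.add_re, Complex.mul_re, Complex.sub_re, Complex.sub_im, Complex.ofReal_re,
    Complex.ofReal_im]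
  ring

theorem Dd_rec (hs : Real.sin d ≠ 0) (ψ : ℝ) (z : ℂ) :
    Dd H (ψ + d) z + Dd H (ψ - d) z - 2 * Real.cos d * Dd H ψ z = lf H d ψ * Real.sin d := by
  have h1 : ee (-(ψ + d)) = ee (-ψ) * ee (-d) := by rw [← ee_add]; congr 1; ring
  have h2 : ee (-(ψ - d)) = ee (-ψ) * ee d := by rw [← ee_add]; congr 1; ring
  unfold Dd lf
  rw [h1, h2, div_mul_cancel₀ _ hs]
  have e1 : ee (-ψ) * ee (-d) * z = ee (-d) * (ee (-ψ) * z) := by ring
  have e2 : ee (-ψ) * ee d * z = ee d * (ee (-ψ) * z) := by ring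
  rw [e1, e2]
  simp only [Complex.mul_re (ee (-d)), Complex.mul_re (ee d), ee_re, ee_im, Real.cos_neg,
    Real.sin_neg]
  ring

theorem Dd_zero (φ : ℝ) : Dd H φ (Vv H d φ) = 0 := by
  unfold Dd
  rw [rot_Vv]
  simp only [Complex.add_re, Complex.mul_re, Complex.I_re, Complex.I_im, Complex.ofReal_re,
    Complex.ofReal_im]
  ring

theorem Dd_zero' (hs : Real.sin d ≠ 0) (φ : ℝ) : Dd H (φ - d) (Vv H d φ) = 0 := by
  have h := rot_Vv_succ (H := H) hs (φ - d)
  rw [sub_add_cancel] at h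
  unfold Dd
  rw [h]
  simp only [Complex.add_re, Complex.mul_re, Complex.I_re, Complex.I_im, Complex.ofReal_re,
    Complex.ofReal_im]
  ring

theorem Dd_one (hs : Real.sin d ≠ 0) (φ : ℝ) :
    Dd H (φ + d) (Vv H d φ) = lf H d φ * Real.sin d := by
  have h := Dd_rec (H := H) hs φ (Vv H d φ)
  rw [Dd_zero, Dd_zero' hs] at h
  linarith

theorem Dd_one' (hs : Real.sin d ≠ 0) (φ : ℝ) :
    Dd H (φ - d - d) (Vv H d φ) = lf H d (φ - d) * Real.sin d := by
  have h := Dd_rec (H := H) hs (φ - d) (Vv H d φ)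
  rw [sub_add_cancel, Dd_zero, Dd_zero' hs] at h
  linarith

theorem fwd (hd : 0 < d) (hd2 : d < Real.pi) (hl : ∀ φ, 0 < lf H d φ) (φ : ℝ) {m : ℕ}
    (hm : 0 < m) (hmd : (m : ℝ) * d ≤ Real.pi) : 0 < Dd H (φ + m * d) (Vv H d φ) := by
  have hs : Real.sin d ≠ 0 := (Real.sin_pos_of_pos_of_lt_pi hd hd2).ne'
  refine seq_pos hd hd2 (E := fun m => Dd H (φ + m * d) (Vv H d φ))
    (L := fun m => lf H d (φ + m * d)) ?_ ?_ ?_ (fun i => hl _) hm hmd
  · simp only [Nat.cast_zero, zero_mul, add_zero]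
    exact Dd_zero φ
  · simp only [Nat.cast_one, one_mul, Nat.cast_zero, zero_mul, add_zero]
    exact Dd_one hs φ
  · intro m
    have h := Dd_rec (H := H) hs (φ + ((m + 1 : ℕ) : ℝ) * d) (Vv H d φ)
    have e1 : φ + ((m + 1 : ℕ) : ℝ) * d + d = φ + ((m + 2 : ℕ) : ℝ) * d := by push_cast; ring
    have e2 : φ + ((m + 1 : ℕ) : ℝ) * d - d = φ + (m : ℝ) * d := by push_cast; ring
    rw [e1, e2] at h
    exact h

theorem bwd (hd : 0 < d) (hd2 : d < Real.pi) (hl : ∀ φ, 0 < lf H d φ) (φ : ℝ) {m : ℕ}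
    (hm : 0 < m) (hmd : (m : ℝ) * d ≤ Real.pi) : 0 < Dd H (φ - d - m * d) (Vv H d φ) := by
  have hs : Real.sin d ≠ 0 := (Real.sin_pos_of_pos_of_lt_pi hd hd2).ne'
  refine seq_pos hd hd2 (E := fun m => Dd H (φ - d - m * d) (Vv H d φ))
    (L := fun m => lf H d (φ - d - m * d)) ?_ ?_ ?_ (fun i => hl _) hm hmd
  · simp only [Nat.cast_zero, zero_mul, sub_zero]
    exact Dd_zero' hs φ
  · simp only [Nat.cast_one, one_mul, Nat.cast_zero, zero_mul, sub_zero]
    exact Dd_one' hs φ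
  · intro m
    have h := Dd_rec (H := H) hs (φ - d - ((m + 1 : ℕ) : ℝ) * d) (Vv H d φ)
    have e1 : φ - d - ((m + 1 : ℕ) : ℝ) * d + d = φ - d - (m : ℝ) * d := by push_cast; ring
    have e2 : φ - d - ((m + 1 : ℕ) : ℝ) * d - d = φ - d - ((m + 2 : ℕ) : ℝ) * d := by
      push_cast; ring
    rw [e1, e2] at h
    rw [add_comm (Dd H (φ - d - ((m + 2 : ℕ) : ℝ) * d) (Vv H d φ))]
    exact h

theorem Dd_per (hper : ∀ φ, H (φ + 2 * Real.pi) = H φ) (φ : ℝ) (z : ℂ) :
    Dd H (φ + 2 * Real.pi) z = Dd H φ z := by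
  unfold Dd
  rw [hper]
  have : ee (-(φ + 2 * Real.pi)) = ee (-φ) := by
    rw [← ee_two_pi (-(φ + 2 * Real.pi))]
    congr 1
    ring
  rw [this]

theorem Dd_per_int (hper : ∀ φ, H (φ + 2 * Real.pi) = H φ) (φ : ℝ) (z : ℂ) (k : ℤ) :
    Dd H (φ + k * (2 * Real.pi)) z = Dd H φ z := by
  induction k using Int.induction_on with
  | zero => simp
  | succ k ih =>
    rw [← ih, ← Dd_per hper (φ + (k : ℤ) * (2 * Real.pi)) z]
    congr 1
    push_cast
    ring
  | pred k ih =>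
    rw [← ih, ← Dd_per hper (φ + ((-(k : ℤ) - 1 : ℤ) : ℝ) * (2 * Real.pi)) z]
    congr 1
    push_cast
    ring

/-- sign of the distances of the vertices to the side lines -/
theorem Dd_sign (hd : 0 < d) (hd2 : d < Real.pi) (hl : ∀ φ, 0 < lf H d φ)
    (hper : ∀ φ, H (φ + 2 * Real.pi) = H φ) {N : ℕ} (hN : (N : ℝ) * d = 2 * Real.pi)
    (φ : ℝ) (m : ℤ) :
    0 ≤ Dd H (φ + m * d) (Vv H d φ) ∧
      (¬ ((N : ℤ) ∣ m) → ¬ ((N : ℤ) ∣ m + 1) → 0 < Dd H (φ + m * d) (Vv H d φ)) := by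
  have hs : Real.sin d ≠ 0 := (Real.sin_pos_of_pos_of_lt_pi hd hd2).ne'
  have hNpos : 0 < N := by
    rcases Nat.eq_zero_or_pos N with h | h
    · rw [h] at hN
      simp at hN
    · exact h
  have hNz : (N : ℤ) ≠ 0 := by exact_mod_cast hNpos.ne'
  obtain ⟨q, hq⟩ : ∃ q : ℤ, q = m / N := ⟨_, rfl⟩
  obtain ⟨r, hr⟩ : ∃ r : ℕ, (r : ℤ) = m % N := by
    have := Int.emod_nonneg m hNz
    exact ⟨(m % N).toNat, Int.toNat_of_nonneg this⟩
  have hrN : r < N := by
    have := Int.emod_lt_of_pos m (show (0 : ℤ) < N by exact_mod_cast hNpos)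
    rw [← hr] at this
    exact_mod_cast this
  have hm : m = r + N * q := by
    rw [hq, hr]
    exact (Int.emod_add_mul_ediv m N).symm
  have hmr : (m : ℝ) = r + N * q := by rw [hm]; push_cast; ring
  have e1 : φ + m * d = (φ + r * d) + q * (2 * Real.pi) := by
    rw [hmr, ← hN]; ring
  rw [e1, Dd_per_int hper]
  by_cases hr0 : r = 0
  · rw [hr0]
    simp only [Nat.cast_zero, zero_mul, add_zero]
    refine ⟨(Dd_zero φ).ge, fun h _ => absurd ?_ h⟩
    rw [hm, hr0]
    simp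
  · have hrpos : 0 < r := Nat.pos_of_ne_zero hr0
    by_cases hr1 : (r : ℝ) * d ≤ Real.pi
    · have := fwd hd hd2 hl φ hrpos hr1
      exact ⟨this.le, fun _ _ => this⟩
    · push Not at hr1
      obtain ⟨k, hk⟩ : ∃ k : ℕ, r + 1 + k = N := ⟨N - r - 1, by omega⟩
      have hkd : (k : ℝ) * d ≤ Real.pi := by
        have : ((r + 1 + k : ℕ) : ℝ) * d = 2 * Real.pi := by rw [hk]; exact hN
        push_cast at this
        nlinarith
      have e2 : φ + r * d = (φ - d - k * d) + 2 * Real.pi := by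
        rw [← hN, ← hk]; push_cast; ring
      rw [e2, Dd_per hper]
      by_cases hk0 : k = 0
      · rw [hk0]
        simp only [Nat.cast_zero, zero_mul, sub_zero]
        refine ⟨(Dd_zero' hs φ).ge, fun _ h => absurd ?_ h⟩
        have : m + 1 = N * (1 + q) := by
          rw [hm, ← hk, hk0]; push_cast; ring
        rw [this]
        exact dvd_mul_right _ _
      · have := bwd hd hd2 hl φ (Nat.pos_of_ne_zero hk0) hkd
        exact ⟨this.le, fun _ _ => this⟩

/-- the logarithmic integral over one side -/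
theorem side_integral (hs : Real.sin d ≠ 0) (φ : ℝ) (z0 : ℂ) (hD : 0 < Dd H φ z0) :
    ∫ s in (0 : ℝ)..1, (Vv H d (φ + d) - Vv H d φ) /
      (Vv H d φ + s * (Vv H d (φ + d) - Vv H d φ) - z0) =
    Complex.log (ee (-φ) * (Vv H d (φ + d) - z0)) - Complex.log (ee (-φ) * (Vv H d φ - z0)) := by
  set S : ℂ := Vv H d (φ + d) - Vv H d φ with hS
  set f : ℝ → ℂ := fun s => ee (-φ) * (Vv H d φ + s * S - z0) with hf
  have hre : ∀ s : ℝ, 0 < (f s).re := by
    intro s
    have e1 : f s = (ee (-φ) * Vv H d φ) + s * (I * (lf H d φ : ℂ)) - ee (-φ) * z0 := by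
      have e2 : ee (-φ) * S = I * (lf H d φ : ℂ) := by
        rw [hS, side_eq hs, ← mul_assoc, mul_comm (ee (-φ)), ee_mul_neg, one_mul]
      rw [hf, ← e2]
      simp only
      ring
    rw [e1, rot_Vv]
    unfold Dd at hD
    simp only [Complex.add_re, Complex.sub_re, Complex.mul_re (s : ℂ), Complex.mul_re I,
      Complex.mul_im I, Complex.I_re, Complex.I_im, Complex.ofReal_re, Complex.ofReal_im]
    linarith
  have hder : ∀ s : ℝ, HasDerivAt f (ee (-φ) * S) s := by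
    intro s
    have h1 : HasDerivAt (fun s : ℝ => (s : ℂ)) 1 s := Complex.ofRealCLM.hasDerivAt
    have h2 := (((h1.mul_const S).const_add (Vv H d φ)).sub_const z0).const_mul (ee (-φ))
    rw [one_mul] at h2
    exact h2
  have hlog : ∀ s : ℝ, HasDerivAt (fun t => Complex.log (f t)) (S / (Vv H d φ + s * S - z0)) s := by
    intro s
    have h1 := (hder s).clog_real (Or.inl (hre s))
    have e : ee (-φ) * S / f s = S / (Vv H d φ + s * S - z0) := by
      rw [hf]
      exact mul_div_mul_left _ _ (ee_ne _)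
    rw [e] at h1
    exact h1
  have hne : ∀ s : ℝ, Vv H d φ + s * S - z0 ≠ 0 := by
    intro s h0
    have h1 := hre s
    rw [hf] at h1
    simp only [h0, mul_zero, Complex.zero_re, lt_self_iff_false] at h1
  have hcont : Continuous (fun s : ℝ => S / (Vv H d φ + s * S - z0)) := by
    apply Continuous.div continuous_const _ hne
    fun_prop
  rw [intervalIntegral.integral_eq_sub_of_hasDerivAt (fun s _ => hlog s)
    (hcont.intervalIntegrable _ _)]
  congr 2
  · rw [hf, hS]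
    simp only [Complex.ofReal_one, one_mul]
    congr 1
    ring
  · rw [hf]
    simp only [Complex.ofReal_zero, zero_mul, add_zero]

theorem log_rot {a : ℂ} (ha : 0 < a.re) (hd : 0 < d) (hd2 : d < Real.pi / 2) :
    Complex.log (ee d * a) = d * I + Complex.log a := by
  have ha0 : a ≠ 0 := by
    rintro rfl
    simp at ha
  have h1 : Complex.log (ee d) = d * I := by
    unfold ee
    rw [Complex.log_exp]
    · simp only [Complex.mul_im, Complex.ofReal_re, Complex.I_im, mul_one, Complex.ofReal_im,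
        Complex.I_re, mul_zero, add_zero]
      linarith [Real.pi_pos]
    · simp only [Complex.mul_im, Complex.ofReal_re, Complex.I_im, mul_one, Complex.ofReal_im,
        Complex.I_re, mul_zero, add_zero]
      linarith [Real.pi_pos]
  have harg : |Complex.arg a| < Real.pi / 2 := Complex.abs_arg_lt_pi_div_two_iff.2 (Or.inl ha)
  have h2 : Complex.arg (ee d) = d := by
    unfold ee
    rw [Complex.arg_exp_mul_I, toIocMod_eq_self]
    constructor
    · linarith [Real.pi_pos]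
    · linarith [Real.pi_pos]
  rw [← h1]
  rw [Complex.log_mul_eq_add_log_iff (ee_ne d) ha0, h2]
  have := abs_lt.1 harg
  constructor <;> linarith [Real.pi_pos]

/-! ## The support function -/

/-- support function of `W` -/
def hW (W : Set ℂ) (φ : ℝ) : ℝ := sSup ((fun w : ℂ => (ee (-φ) * w).re) '' W)

theorem hW_bdd {W : Set ℂ} (hc : IsCompact W) (φ : ℝ) :
    IsCompact ((fun w : ℂ => (ee (-φ) * w).re) '' W) :=
  hc.image (by fun_prop)

theorem hW_le {W : Set ℂ} (hc : IsCompact W) {w : ℂ} (hw : w ∈ W) (φ : ℝ) :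
    (ee (-φ) * w).re ≤ hW W φ :=
  le_csSup (hW_bdd hc φ).bddAbove ⟨w, hw, rfl⟩

theorem hW_att {W : Set ℂ} (hc : IsCompact W) (hne : W.Nonempty) (φ : ℝ) :
    ∃ w ∈ W, (ee (-φ) * w).re = hW W φ := by
  have h := (hW_bdd hc φ).sSup_mem (hne.image _)
  obtain ⟨w, hw, e⟩ := h
  exact ⟨w, hw, e⟩

theorem ee_neg_two_pi (φ : ℝ) : ee (-(φ + 2 * Real.pi)) = ee (-φ) := by
  rw [← ee_two_pi (-(φ + 2 * Real.pi))]
  congr 1
  ring

theorem hW_per (W : Set ℂ) (φ : ℝ) : hW W (φ + 2 * Real.pi) = hW W φ := by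
  unfold hW
  rw [ee_neg_two_pi]

theorem hW_sub {W : Set ℂ} (hc : IsCompact W) (hne : W.Nonempty) (φ : ℝ) :
    2 * Real.cos d * hW W φ ≤ hW W (φ + d) + hW W (φ - d) := by
  obtain ⟨w, hw, e⟩ := hW_att hc hne φ
  have h1 := hW_le hc hw (φ + d)
  have h2 := hW_le hc hw (φ - d)
  have e1 : ee (-(φ + d)) * w = ee (-d) * (ee (-φ) * w) := by
    rw [← mul_assoc, ← ee_add]; congr 2; ring
  have e2 : ee (-(φ - d)) * w = ee d * (ee (-φ) * w) := by
    rw [← mul_assoc, ← ee_add]; congr 2; ring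
  rw [e1, Complex.mul_re (ee (-d)), ee_re, ee_im, Real.cos_neg, Real.sin_neg, e] at h1
  rw [e2, Complex.mul_re (ee d), ee_re, ee_im, e] at h2
  linarith

theorem Vv_per (hper : ∀ φ, H (φ + 2 * Real.pi) = H φ) (φ : ℝ) :
    Vv H d (φ + 2 * Real.pi) = Vv H d φ := by
  unfold Vv
  have : φ + 2 * Real.pi - d = (φ - d) + 2 * Real.pi := by ring
  rw [this, hper, hper, ee_two_pi]

/-- the vertices are close to `W` -/
theorem vertex_dist {W : Set ℂ} (hc : IsCompact W) (hcv : Convex ℝ W) (hne : W.Nonempty) {r Δ : ℝ}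
    (hr : 0 < r) (hΔ : ∀ p ∈ W, ∀ q ∈ W, ‖p - q‖ ≤ Δ) (hd : 0 < d) (hd2 : d ≤ 1 / 2)
    (hd3 : 4 * d * Δ ≤ r / 2) (φ : ℝ) :
    Metric.infDist (Vv (fun φ => hW W φ + r / 2) d φ) W ≤ r := by
  have hΔ0 : 0 ≤ Δ := by
    obtain ⟨w, hw⟩ := hne
    exact (norm_nonneg _).trans (hΔ w hw w hw)
  obtain ⟨p, hp, ep⟩ := hW_att hc hne φ
  obtain ⟨q, hq, eq⟩ := hW_att hc hne (φ - d)
  have hs0 : 0 < Real.sin d := Real.sin_pos_of_pos_of_lt_pi hd (by linarith [Real.pi_gt_three])
  have hsd : Real.sin d ≤ d := Real.sin_le hd.le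
  have hc1 : 1 / 2 ≤ Real.cos d := by
    have := Real.one_sub_sq_div_two_le_cos (x := d)
    nlinarith
  have hc2 : Real.cos d ≤ 1 := Real.cos_le_one d
  have hsc := Real.sin_sq_add_cos_sq d
  have eq2 : ee (-(φ - d)) * q = ee d * (ee (-φ) * q) := by
    rw [← mul_assoc, ← ee_add]; congr 2; ring
  have ep2 : ee (-(φ - d)) * p = ee d * (ee (-φ) * p) := by
    rw [← mul_assoc, ← ee_add]; congr 2; ring
  have f1 : (ee (-φ) * q).re ≤ hW W φ := hW_le hc hq φ
  have f3 : (ee (-(φ - d)) * p).re ≤ hW W (φ - d) := hW_le hc hp (φ - d)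
  rw [eq2, Complex.mul_re (ee d), ee_re, ee_im] at eq
  rw [ep2, Complex.mul_re (ee d), ee_re, ee_im, ep] at f3
  have f5 : (ee (-φ) * p).im - (ee (-φ) * q).im ≤ Δ := by
    have h1 : ‖ee (-φ) * p - ee (-φ) * q‖ ≤ Δ := by
      rw [← mul_sub, norm_mul, ee_norm, one_mul]
      exact hΔ p hp q hq
    have h2 := Complex.abs_im_le_norm (ee (-φ) * p - ee (-φ) * q)
    rw [Complex.sub_im] at h2
    exact (le_abs_self _).trans (h2.trans h1)
  obtain ⟨c, hcd⟩ : ∃ c, c = Real.cos d := ⟨_, rfl⟩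
  obtain ⟨s, hsdef⟩ : ∃ s, s = Real.sin d := ⟨_, rfl⟩
  obtain ⟨h, hh⟩ : ∃ h, h = hW W φ := ⟨_, rfl⟩
  obtain ⟨h', hh'⟩ : ∃ h', h' = hW W (φ - d) := ⟨_, rfl⟩
  obtain ⟨xq, hxq⟩ : ∃ xq, xq = (ee (-φ) * q).re := ⟨_, rfl⟩
  obtain ⟨yq, hyq⟩ : ∃ yq, yq = (ee (-φ) * q).im := ⟨_, rfl⟩
  obtain ⟨yp, hyp⟩ : ∃ yp, yp = (ee (-φ) * p).im := ⟨_, rfl⟩
  rw [← hcd] at hc1 hc2 hsc
  rw [← hsdef] at hs0 hsd hsc
  rw [← hcd, ← hsdef, ← hxq, ← hyq, ← hh'] at eq
  rw [← hcd, ← hsdef, ← hyp, ← hh, ← hh'] at f3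
  rw [← hxq, ← hh] at f1
  rw [← hyq, ← hyp] at f5
  set y : ℝ := (c * h - h') / s with hy
  have hys : y * s = c * h - h' := div_mul_cancel₀ _ hs0.ne'
  have g1 : yq ≤ y := by
    have : yq * s ≤ y * s := by rw [hys]; nlinarith
    exact le_of_mul_le_mul_right this hs0
  have g2 : y ≤ yp := by
    have : y * s ≤ yp * s := by rw [hys]; nlinarith
    exact le_of_mul_le_mul_right this hs0
  obtain ⟨l, hl0, hl1, hl⟩ : ∃ l : ℝ, 0 ≤ l ∧ l ≤ 1 ∧ y = (1 - l) * yq + l * yp := by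
    by_cases hpq : yp = yq
    · exact ⟨1, zero_le_one, le_rfl, by linarith⟩
    · have hpos : 0 < yp - yq := by
        rcases lt_or_eq_of_le (g1.trans g2) with h | h
        · linarith
        · exact absurd h.symm hpq
      refine ⟨(y - yq) / (yp - yq), div_nonneg (by linarith) hpos.le,
        (div_le_one hpos).2 (by linarith), ?_⟩
      field_simp
      ring
  set w : ℂ := (1 - l) • q + l • p with hw
  have hwW : w ∈ W := hcv hq hp (by linarith) hl0 (by ring)
  refine (Metric.infDist_le_dist_of_mem hwW).trans ?_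
  rw [dist_eq_norm]
  have e1 : ‖Vv (fun φ => hW W φ + r / 2) d φ - w‖ =
      ‖ee (-φ) * Vv (fun φ => hW W φ + r / 2) d φ - ee (-φ) * w‖ := by
    rw [← mul_sub, norm_mul, ee_norm, one_mul]
  rw [e1, rot_Vv]
  refine (Complex.norm_le_abs_re_add_abs_im _).trans ?_
  have e2 : ee (-φ) * w = ((1 - l : ℝ) : ℂ) * (ee (-φ) * q) + (l : ℂ) * (ee (-φ) * p) := by
    rw [hw, Complex.real_smul, Complex.real_smul]; ring
  rw [e2]
  simp only [Complex.sub_re, Complex.sub_im, Complex.add_re, Complex.add_im, Complex.ofReal_re,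
    Complex.ofReal_im, Complex.mul_re (Complex.ofReal _), Complex.mul_im (Complex.ofReal _),
    Complex.mul_re I, Complex.mul_im I, Complex.I_re, Complex.I_im]
  rw [ep, ← hxq, ← hyq, ← hyp, ← hh, ← hh', ← hcd, ← hsdef]
  -- the horizontal part
  have hx : (h - xq) * c ≤ s * Δ := by
    have : (h - xq) * c = s * (y - yq) := by nlinarith
    rw [this]
    exact mul_le_mul_of_nonneg_left (by linarith) hs0.le
  have hx2 : h - xq ≤ 2 * d * Δ := by
    have h1 : (h - xq) * (1 / 2) ≤ (h - xq) * c := mul_le_mul_of_nonneg_left hc1 (by linarith)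
    have h2 : s * Δ ≤ d * Δ := mul_le_mul_of_nonneg_right hsd hΔ0
    linarith
  have ht : (c * (h + r / 2) - (h' + r / 2)) / s = y - r / 2 * ((1 - c) / s) := by
    rw [hy]; field_simp; ring
  have hcs : (1 - c) / s ≤ d := by
    rw [div_le_iff₀ hs0]
    have h1 : 1 - c ≤ s * s := by nlinarith
    exact h1.trans (mul_le_mul_of_nonneg_right hsd hs0.le)
  have hcs0 : 0 ≤ (1 - c) / s := div_nonneg (by linarith) hs0.le
  have a1 : |h + r / 2 + (0 * ((c * (h + r / 2) - (h' + r / 2)) / s) - 1 * 0) -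
      ((1 - l) * xq - 0 * yq + (l * h - 0 * yp))| ≤ r / 2 + 2 * d * Δ := by
    rw [abs_le]
    constructor
    · nlinarith
    · nlinarith
  have a2 : |0 + (0 * 0 + 1 * ((c * (h + r / 2) - (h' + r / 2)) / s)) -
      ((1 - l) * yq + 0 * xq + (l * yp + 0 * h))| ≤ r / 2 * d := by
    rw [ht, abs_le]
    constructor
    · nlinarith
    · nlinarith
  calc _ ≤ (r / 2 + 2 * d * Δ) + r / 2 * d := add_le_add a1 a2
    _ ≤ r := by nlinarith

theorem st_POLY : ST_POLY := by
  intro W hc hcv hne r hr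
  obtain ⟨Δ, hΔ⟩ : ∃ Δ : ℝ, ∀ p ∈ W, ∀ q ∈ W, ‖p - q‖ ≤ Δ := by
    obtain ⟨C, hC⟩ := Metric.isBounded_iff.1 hc.isBounded
    exact ⟨C, fun p hp q hq => by rw [← dist_eq_norm]; exact hC hp hq⟩
  obtain ⟨w0, hw0⟩ := hne
  have hne : W.Nonempty := ⟨w0, hw0⟩
  have hΔ0 : 0 ≤ Δ := (norm_nonneg _).trans (hΔ w0 hw0 w0 hw0)
  have hpi := Real.pi_pos
  have hpi3 := Real.pi_gt_three
  have hpi4 := Real.pi_lt_d2
  -- the number of sides
  obtain ⟨N, hN1⟩ := exists_nat_gt (13 + 16 * Real.pi * Δ / r)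
  have hq0 : 0 ≤ 16 * Real.pi * Δ / r := by positivity
  have hN13 : (13 : ℝ) < N := by linarith
  have hNp : (0 : ℝ) < N := by linarith
  have hN0 : 0 < N := by exact_mod_cast hNp
  have hN13' : 13 < N := by exact_mod_cast hN13
  obtain ⟨d, hdef⟩ : ∃ d : ℝ, d = 2 * Real.pi / N := ⟨_, rfl⟩
  have hN : (N : ℝ) * d = 2 * Real.pi := by rw [hdef]; field_simp
  have hd : 0 < d := by rw [hdef]; positivity
  have hd2 : d ≤ 1 / 2 := by
    rw [hdef, div_le_iff₀ hNp]; linarith
  have hd3 : 4 * d * Δ ≤ r / 2 := by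
    have h1 : 16 * Real.pi * Δ / r ≤ N := by linarith
    rw [div_le_iff₀ hr] at h1
    have h2 : 16 * Real.pi * Δ = 8 * (N * d) * Δ := by rw [hN]; ring
    have h3 : N * (8 * d * Δ) ≤ N * r := by nlinarith
    have h4 := le_of_mul_le_mul_left h3 hNp
    linarith
  have hdpi : d < Real.pi := by linarith
  have hs0 : 0 < Real.sin d := Real.sin_pos_of_pos_of_lt_pi hd hdpi
  have hs : Real.sin d ≠ 0 := hs0.ne'
  have hcos : Real.cos d < 1 := by
    rcases lt_or_eq_of_le (Real.cos_le_one d) with h | h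
    · exact h
    · have := Real.sin_sq_add_cos_sq d
      rw [h] at this
      nlinarith
  obtain ⟨H, hH⟩ : ∃ H : ℝ → ℝ, H = fun φ => hW W φ + r / 2 := ⟨_, rfl⟩
  have hHv : ∀ φ, H φ = hW W φ + r / 2 := fun φ => by rw [hH]
  have hper : ∀ φ, H (φ + 2 * Real.pi) = H φ := fun φ => by rw [hHv, hHv, hW_per]
  have hl0 : ∀ φ, r * (1 - Real.cos d) / Real.sin d ≤ lf H d φ := by
    intro φ
    unfold lf
    apply div_le_div_of_nonneg_right _ hs0.le
    rw [hHv, hHv, hHv]
    have := hW_sub (d := d) hc hne φ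
    linarith
  have hlp : 0 < r * (1 - Real.cos d) / Real.sin d :=
    div_pos (mul_pos hr (by linarith)) hs0
  have hl : ∀ φ, 0 < lf H d φ := fun φ => lt_of_lt_of_le hlp (hl0 φ)
  have hDW : ∀ w ∈ W, ∀ φ, r / 2 ≤ Dd H φ w := by
    intro w hw φ
    unfold Dd
    rw [hHv]
    have := hW_le hc hw φ
    linarith
  have hsucc : ∀ j : ℕ, (((j + 1 : ℕ) : ℝ)) * d = (j : ℝ) * d + d := fun j => by push_cast; ring
  -- signs
  have hsg := fun (φ : ℝ) (m : ℤ) => Dd_sign (H := H) hd hdpi hl hper hN φ m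
  have hcrs : ∀ (j : ℕ) (z : ℂ), crs (Vv H d (((j + 1 : ℕ) : ℝ) * d) - Vv H d ((j : ℝ) * d))
      (z - Vv H d ((j : ℝ) * d)) = lf H d ((j : ℝ) * d) * Dd H ((j : ℝ) * d) z := by
    intro j z
    rw [hsucc, crs_side hs]
  have hsgn : ∀ (j k : ℕ), 0 ≤ Dd H ((j : ℝ) * d) (Vv H d ((k : ℝ) * d)) ∧
      (¬ ((N : ℤ) ∣ (j : ℤ) - k) → ¬ ((N : ℤ) ∣ (j : ℤ) - k + 1) →
        0 < Dd H ((j : ℝ) * d) (Vv H d ((k : ℝ) * d))) := by
    intro j k
    have h := hsg ((k : ℝ) * d) ((j : ℤ) - k)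
    have e : (k : ℝ) * d + (((j : ℤ) - k : ℤ) : ℝ) * d = (j : ℝ) * d := by push_cast; ring
    rw [e] at h
    exact h
  let P : CPoly :=
    { N := N
      v := fun j => Vv H d ((j : ℝ) * d)
      npos := hN0
      closed := by
        show Vv H d ((N : ℝ) * d) = Vv H d (((0 : ℕ) : ℝ) * d)
        have h0 := Vv_per (d := d) hper 0
        rw [zero_add] at h0
        rw [hN, h0, Nat.cast_zero, zero_mul]
      nd := by
        intro j _ h
        have h1 : Vv H d (((j + 1 : ℕ) : ℝ) * d) - Vv H d ((j : ℝ) * d) = 0 := sub_eq_zero.2 h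
        rw [hsucc, side_eq hs] at h1
        have h2 : (lf H d ((j : ℝ) * d) : ℂ) ≠ 0 := by exact_mod_cast (hl _).ne'
        exact mul_ne_zero (ee_ne _) (mul_ne_zero Complex.I_ne_zero h2) h1
      left := by
        intro j _ k _
        show 0 ≤ crs (Vv H d (((j + 1 : ℕ) : ℝ) * d) - Vv H d ((j : ℝ) * d))
          (Vv H d ((k : ℝ) * d) - Vv H d ((j : ℝ) * d))
        rw [hcrs]
        exact mul_nonneg (hl _).le (hsgn j k).1
      strict := by
        intro j hj k hk hjk s hs0 hs1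
        show 0 < crs (Vv H d (((k + 1 : ℕ) : ℝ) * d) - Vv H d ((k : ℝ) * d))
          (Vv H d ((j : ℝ) * d) + s * (Vv H d (((j + 1 : ℕ) : ℝ) * d) - Vv H d ((j : ℝ) * d)) -
            Vv H d ((k : ℝ) * d))
        rw [hcrs]
        apply mul_pos (hl _)
        rw [Dd_affine]
        have h1 := hsgn k j
        have h2 := hsgn k (j + 1)
        have hkj : ¬ ((N : ℤ) ∣ (k : ℤ) - j) := by
          intro h
          have h3 : |(k : ℤ) - j| < N := by
            rw [abs_lt]; constructor <;> omega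
          have := Int.eq_zero_of_abs_lt_dvd h h3
          omega
        by_cases h3 : (N : ℤ) ∣ (k : ℤ) - j + 1
        · have h4 : ¬ ((N : ℤ) ∣ (k : ℤ) - (j + 1 : ℕ)) := by
            intro h4
            have h5 : (N : ℤ) ∣ 2 := by
              have := dvd_sub h3 h4
              have e : (k : ℤ) - j + 1 - ((k : ℤ) - (j + 1 : ℕ)) = 2 := by push_cast; ring
              rwa [e] at this
            have := Int.le_of_dvd (by norm_num) h5
            omega
          have h5 : ¬ ((N : ℤ) ∣ (k : ℤ) - (j + 1 : ℕ) + 1) := by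
            intro h5
            apply hkj
            have e : (k : ℤ) - (j + 1 : ℕ) + 1 = (k : ℤ) - j := by push_cast; ring
            rwa [e] at h5
          have h6 := h2.2 h4 h5
          have := mul_pos hs0 h6
          have := mul_nonneg (by linarith : (0 : ℝ) ≤ 1 - s) h1.1
          linarith
        · have h6 := h1.2 hkj h3
          have := mul_pos (by linarith : (0 : ℝ) < 1 - s) h6
          have := mul_nonneg hs0.le h2.1
          linarith
      z0 := w0
      inside := by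
        intro j _
        show 0 < crs (Vv H d (((j + 1 : ℕ) : ℝ) * d) - Vv H d ((j : ℝ) * d))
          (w0 - Vv H d ((j : ℝ) * d))
        rw [hcrs]
        exact mul_pos (hl _) (lt_of_lt_of_le (by linarith) (hDW w0 hw0 _))
      wind := by
        have key : ∀ j ∈ Finset.range N, (∫ s in (0 : ℝ)..1,
            (Vv H d (((j + 1 : ℕ) : ℝ) * d) - Vv H d ((j : ℝ) * d)) /
            (Vv H d ((j : ℝ) * d) + s * (Vv H d (((j + 1 : ℕ) : ℝ) * d) - Vv H d ((j : ℝ) * d)) -
              w0)) = d * I +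
            (Complex.log (ee (-(((j + 1 : ℕ) : ℝ) * d)) * (Vv H d (((j + 1 : ℕ) : ℝ) * d) - w0)) -
              Complex.log (ee (-((j : ℝ) * d)) * (Vv H d ((j : ℝ) * d) - w0))) := by
          intro j _
          have hre : ∀ φ : ℝ, 0 < (ee (-φ) * (Vv H d φ - w0)).re := by
            intro φ
            have h1 := hDW w0 hw0 φ
            unfold Dd at h1
            rw [mul_sub, rot_Vv, Complex.sub_re, Complex.add_re, Complex.mul_re I, Complex.I_re,
              Complex.I_im, Complex.ofReal_re, Complex.ofReal_re, Complex.ofReal_im]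
            linarith
          rw [hsucc, side_integral hs _ _ (lt_of_lt_of_le (by linarith) (hDW w0 hw0 _))]
          have e1 : ee (-((j : ℝ) * d)) * (Vv H d ((j : ℝ) * d + d) - w0) =
              ee d * (ee (-((j : ℝ) * d + d)) * (Vv H d ((j : ℝ) * d + d) - w0)) := by
            rw [← mul_assoc, ← ee_add]
            congr 2
            ring
          rw [e1, log_rot (hre _) hd (by linarith)]
          ring
        show ∑ j ∈ Finset.range N, ∫ s in (0 : ℝ)..1,
            (Vv H d (((j + 1 : ℕ) : ℝ) * d) - Vv H d ((j : ℝ) * d)) /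
            (Vv H d ((j : ℝ) * d) + s * (Vv H d (((j + 1 : ℕ) : ℝ) * d) - Vv H d ((j : ℝ) * d)) -
              w0) = 2 * Real.pi * I
        rw [Finset.sum_congr rfl key, Finset.sum_add_distrib, Finset.sum_const, Finset.card_range,
          Finset.sum_range_sub (fun j : ℕ =>
            Complex.log (ee (-((j : ℝ) * d)) * (Vv H d ((j : ℝ) * d) - w0)))]
        have e2 : ee (-((N : ℝ) * d)) = ee (-(((0 : ℕ) : ℝ) * d)) := by
          rw [hN]
          have h1 := ee_neg_two_pi 0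
          rw [zero_add] at h1
          rw [h1]
          congr 1
          push_cast
          ring
        have e3 : Vv H d ((N : ℝ) * d) = Vv H d (((0 : ℕ) : ℝ) * d) := by
          have h0 := Vv_per (d := d) hper 0
          rw [zero_add] at h0
          rw [hN, h0, Nat.cast_zero, zero_mul]
        rw [e2, e3, sub_self, add_zero, nsmul_eq_mul]
        have e4 : (N : ℂ) * (d * I) = ((N * d : ℝ) : ℂ) * I := by push_cast; ring
        rw [e4, hN]
        push_cast
        ring }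
  refine ⟨P, r * (1 - Real.cos d) / Real.sin d * (r / 2), by positivity, ?_, ?_⟩
  · intro w hw j _
    show r * (1 - Real.cos d) / Real.sin d * (r / 2) ≤
      crs (Vv H d (((j + 1 : ℕ) : ℝ) * d) - Vv H d ((j : ℝ) * d)) (w - Vv H d ((j : ℝ) * d))
    rw [hcrs]
    exact mul_le_mul (hl0 _) (hDW w hw _) (by linarith) (hl _).le
  · intro j _
    show Metric.infDist (Vv H d ((j : ℝ) * d)) W ≤ r
    rw [hH]
    exact vertex_dist hc hcv hne hr hΔ hd hd2 hd3 _

end

end Pool.Agent.Helper53.CP
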